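import Mathlib
import Pool.Agent.Helper161.Asp.Statement
import Pool.Agent.Helper161.Asp.Forc

/-!
# Consistently, the answer to the question on 1-norming subspaces is negative

Q1 asks whether every nonseparable Asplund space `X` has an equivalent norm such that the only
norm-closed subspace of `X*` which is 1-norming for this norm is `X*` itself. We prove, without any
hypothesis:

* there is a well-order `Ω` of type `ω₁`;
* a theorem of ZFC: for a well-order `Ω` of type `ω₁` the principle `AsplundPrinciple Ω` implies
  that the answer to Q1 is negative;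
* for each well-order `Ω` of type `ω₁` there is a ccc forcing notion (finite partial orders on
  finite subsets of `Ω`) such that all conditions force the principle for `Ω`;
* the sentence that is forced is literally the principle: for the trivial forcing notion `Unit` it
  is equivalent to `AsplundPrinciple Ω`.
-/

namespace Pool.Agent.Results.MP_2b9b38_an.ForcedNegative

open Pool.Agent.Helper161.Asp

theorem result :
    (∃ (Ω : Type) (_ : LinearOrder Ω), WellFoundedLT Ω ∧ Uncountable Ω ∧
      ∀ x : Ω, (Set.Iio x).Countable) ∧
    (∀ (Ω : Type) [LinearOrder Ω] [WellFoundedLT Ω] [Uncountable Ω],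
      (∀ x : Ω, (Set.Iio x).Countable) → AsplundPrinciple Ω → ¬ PositiveQ1) ∧
    (∀ (Ω : Type) [LinearOrder Ω] [WellFoundedLT Ω] [Uncountable Ω],
      (∀ x : Ω, (Set.Iio x).Countable) → ∃ (P : Type) (_ : Preorder P), Nonempty P ∧ CCC P ∧
        ∀ p : P, p ∈ ForcesAsplundPrinciple P Ω) ∧
    (∀ (Ω : Type) [LinearOrder Ω],
      (() ∈ ForcesAsplundPrinciple Unit Ω) ↔ AsplundPrinciple Ω) :=
  final

end Pool.Agent.Results.MP_2b9b38_an.ForcedNegative
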